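import Pool.Agent.Helper74.Robots.Final

/-!
The maximum number of survivors of `n` bouncing robots on a circle is `2 * ⌊(n-1)/3⌋`.
-/

namespace Pool.Agent.Results.MP_6a9d64_co.MaxSurvivors

open Pool.Agent.Helper74.Robots

/-- For every `n ≥ 1`, the largest number of surviving robots, over all configurations of `n`
robots and all motions of them, is `2 * ⌊(n-1)/3⌋`. -/
theorem result (n : ℕ) (_hn : 1 ≤ n) :
    IsGreatest {s : ℕ | ∃ (c : Config n) (x vin vout : Fin n → ℝ → ℝ),
      IsMotion c.home c.dir x vin vout ∧ NoTriple c.home x ∧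
        s = Set.ncard {i | Survives c.home x i}} (2 * ((n - 1) / 3)) :=
  main n

end Pool.Agent.Results.MP_6a9d64_co.MaxSurvivors
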